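import Pool.Agent.Helper95.ML.Simplex
import Pool.Agent.Helper84.Tet.Vol
import Pool.Agent.Helper84.ML3.Adm
import Pool.Agent.Helper19.OL.Gen

/-!
# From seven widths in the frame of a tetrahedron to the lattice packing density
-/

set_option autoImplicit false
namespace Pool.Agent.Helper62.MT
open MeasureTheory
open Pool.Agent.Helper59.Pack Pool.Agent.Helper69.MD Pool.Agent.Helper95.ML
open scoped ENNReal Pointwise RealInnerProductSpace

/-- The standard simplex has volume at least `1 / 6`. -/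
theorem le_vol_sd : ENNReal.ofReal (1 / 6) ≤ volume (convexHull ℝ (Set.range sd)) := by
  have hmp : MeasurePreserving (WithLp.ofLp : E3 → (Fin 3 → ℝ)) volume volume :=
    PiLp.volume_preserving_ofLp (Fin 3)
  have hmO : MeasurableSet (Pool.Agent.Helper84.Tet.SimpO 1) := by
    unfold Pool.Agent.Helper84.Tet.SimpO
    refine MeasurableSet.inter ?_ (MeasurableSet.inter ?_ (MeasurableSet.inter ?_ ?_))
    · exact measurableSet_lt measurable_const (measurable_pi_apply 0)
    · exact measurableSet_lt measurable_const (measurable_pi_apply 1)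
    · exact measurableSet_lt measurable_const (measurable_pi_apply 2)
    · exact measurableSet_lt (((measurable_pi_apply 0).add (measurable_pi_apply 1)).add
        (measurable_pi_apply 2)) measurable_const
  have h1 := Pool.Agent.Helper84.Tet.le_vol_SimpO (s := 1) zero_le_one
  rw [← hmp.measure_preimage hmO.nullMeasurableSet] at h1
  refine le_trans (le_of_eq (by norm_num)) (h1.trans (measure_mono ?_))
  rintro x ⟨h0, h1, h2, h3⟩
  have hx : x = ∑ i, (![1 - x 0 - x 1 - x 2, x 0, x 1, x 2] : Fin 4 → ℝ) i • sd i := by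
    have s0 : sd 0 = 0 := rfl
    have s1 : sd 1 = EuclideanSpace.single 0 1 := rfl
    have s2 : sd 2 = EuclideanSpace.single 1 1 := rfl
    have s3 : sd 3 = EuclideanSpace.single 2 1 := rfl
    rw [Fin.sum_univ_four, s0, s1, s2, s3]
    ext k
    fin_cases k <;> simp
  rw [hx]
  refine (convex_convexHull ℝ _).sum_mem (fun i _ => ?_) ?_
    (fun i _ => subset_convexHull ℝ _ ⟨i, rfl⟩)
  · have h3' : x 0 + x 1 + x 2 < 1 := h3
    fin_cases i
    · simp only [Fin.zero_eta, Matrix.cons_val_zero]; linarith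
    · exact h0.le
    · exact h1.le
    · exact h2.le
  · rw [Fin.sum_univ_four]
    simp
    ring

theorem le_vol_hull (p : Fin 4 → E3) :
    ENNReal.ofReal (|Dt p| / 6) ≤ volume (convexHull ℝ (Set.range p)) := by
  rw [vol_hull_std, show |Dt p| / 6 = |Dt p| * (1 / 6) by ring,
    ENNReal.ofReal_mul (abs_nonneg _)]
  gcongr
  exact le_vol_sd

/-- Strict width bound at interior points. -/
theorem lt_of_width {K : Set E3} {r : E3} (hr : r ≠ 0) {W : ℝ}
    (h : ∀ p ∈ K, ∀ q ∈ K, ⟪r, p - q⟫ ≤ W) {p q : E3} (hp : p ∈ interior K)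
    (hq : q ∈ interior K) : |⟪r, p - q⟫| < W := by
  have key : ∀ p ∈ interior K, ∀ q ∈ interior K, ⟪r, p - q⟫ < W := by
    intro p hp q hq
    obtain ⟨ε, hε, hball⟩ := Metric.isOpen_iff.1 isOpen_interior p hp
    have hn : 0 < ‖r‖ := norm_pos_iff.2 hr
    have hm : p + (ε / (2 * ‖r‖)) • r ∈ K := by
      apply interior_subset
      apply hball
      rw [Metric.mem_ball, dist_eq_norm, add_sub_cancel_left, norm_smul,
        Real.norm_of_nonneg (by positivity)]
      have : ε / (2 * ‖r‖) * ‖r‖ = ε / 2 := by field_simp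
      linarith
    have h1 := h _ hm q (interior_subset hq)
    rw [add_sub_right_comm, inner_add_right, inner_smul_right, real_inner_self_eq_norm_sq] at h1
    have : 0 < ε / (2 * ‖r‖) * ‖r‖ ^ 2 := by positivity
    linarith
  rw [abs_lt]
  refine ⟨?_, key p hp q hq⟩
  have := key q hq p hp
  rw [← neg_sub, inner_neg_right] at this
  linarith

theorem bridge {K : Set E3} (hK : IsConvexBody K) (b : AffineBasis (Fin 4) ℝ E3)
    {β : Fin 4 → ℝ} {e₁ e₂ e₃ τ h : ℝ} (he : -1 ≤ e₁) (h0 : 0 ≤ τ) (h2 : τ ≤ 2 * (1 + e₂))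
    (h3 : τ ≤ 2 * (1 + e₃))
    (ht : τ = 0 ∨ τ ≤ e₂ + e₃ - 2 * β 0 ∨ τ ≤ e₂ + e₃ - 2 * β 1) (h1 : 1 + e₁ ≤ h)
    (hP : 2 - (e₂ + e₃) + τ + 2 * (β 0 + β 1) ≤ h)
    (hQ : 2 - (e₂ + e₃) - τ + 2 * (β 2 + β 3) ≤ h)
    (hD : 0 < (4 * (1 + e₂) * (1 + e₃) - τ ^ 2) * h)
    (w : ∀ i, ∀ p ∈ K, ∀ q ∈ K, b.coord i p - b.coord i q ≤ 1 + β i)
    (w1 : ∀ p ∈ K, ∀ q ∈ K, b.coord 0 p + b.coord 1 p - (b.coord 0 q + b.coord 1 q) ≤ 1 + e₁)
    (w2 : ∀ p ∈ K, ∀ q ∈ K, b.coord 0 p + b.coord 2 p - (b.coord 0 q + b.coord 2 q) ≤ 1 + e₂)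
    (w3 : ∀ p ∈ K, ∀ q ∈ K, b.coord 0 p + b.coord 3 p - (b.coord 0 q + b.coord 3 q) ≤ 1 + e₃) :
    volume K ≤ ENNReal.ofReal (3 / 8 * ((4 * (1 + e₂) * (1 + e₃) - τ ^ 2) * h)) *
      volume (convexHull ℝ (Set.range b)) * deltaL K := by
  choose l c hl using fun i => coord_affine b i
  set a : Fin 4 → E3 := fun i => (InnerProductSpace.toDual ℝ E3).symm (l i) with ha
  have hal : ∀ i z, ⟪a i, z⟫ = l i z := fun i z => by
    rw [ha]; exact InnerProductSpace.toDual_symm_apply
  have hd : ∀ i p q, ⟪a i, p - q⟫ = b.coord i p - b.coord i q := by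
    intro i p q
    rw [hal, map_sub, hl, hl]; ring
  have hcoord : ∀ i j, b.coord i (b j) = if i = j then 1 else 0 := fun i j => b.coord_apply i j
  have hsum : ∀ z, ⟪a 0, z⟫ + ⟪a 1, z⟫ + ⟪a 2, z⟫ + ⟪a 3, z⟫ = 0 := by
    intro z
    have e1 := b.sum_coord_apply_eq_one z
    have e2 := b.sum_coord_apply_eq_one (0 : E3)
    rw [Fin.sum_univ_four] at e1 e2
    have e3 := fun i => hd i z 0
    simp only [sub_zero] at e3
    rw [e3, e3, e3, e3]
    linarith
  have hane : ∀ i, a i ≠ 0 := by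
    intro i hi
    have e1 := hd i (b i) (b (i + 1))
    rw [hi, inner_zero_left, hcoord, hcoord] at e1
    rw [if_pos rfl, if_neg (by fin_cases i <;> decide)] at e1
    norm_num at e1
  set r : Fin 3 → E3 := fun j => (2 : ℝ) • (a 0 + a j.succ) with hr
  have hrz : ∀ j z, ⟪r j, z⟫ = 2 * (⟪a 0, z⟫ + ⟪a j.succ, z⟫) := by
    intro j z
    rw [hr]
    simp only [inner_smul_left, inner_add_left]
    simp
  -- the determinant of the forms
  have hdet : Dt b * (Pool.Agent.Helper19.OL.rows r).det = -16 := by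
    rw [Dt_eq, ← Matrix.det_transpose (Pool.Agent.Helper19.OL.rows r), ← Matrix.det_mul]
    have : (Matrix.of fun i j => (b (Fin.succ i) - b 0) j : Matrix (Fin 3) (Fin 3) ℝ) *
        (Pool.Agent.Helper19.OL.rows r).transpose =
        !![0, -2, -2; -2, 0, -2; -2, -2, 0] := by
      have e1 : ∀ i j, ((Matrix.of fun i j => (b (Fin.succ i) - b 0) j :
          Matrix (Fin 3) (Fin 3) ℝ) * (Pool.Agent.Helper19.OL.rows r).transpose) i j =
          ⟪r j, b (Fin.succ i) - b 0⟫ := by
        intro i j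
        rw [Matrix.mul_apply, PiLp.inner_apply]
        refine Finset.sum_congr rfl fun k _ => ?_
        simp [Pool.Agent.Helper19.OL.rows]
      ext i j
      rw [e1, hrz, hd, hd, hcoord, hcoord, hcoord, hcoord]
      fin_cases i <;> fin_cases j <;> norm_num [Fin.ext_iff]
    rw [this]
    simp [Matrix.det_fin_three]
    norm_num
  have hrdet : (Pool.Agent.Helper19.OL.rows r).det ≠ 0 := by
    intro h
    rw [h, mul_zero] at hdet
    norm_num at hdet
  have hrne : ∀ j, r j ≠ 0 := by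
    intro j hj
    apply hrdet
    refine Matrix.det_eq_zero_of_row_eq_zero j fun k => ?_
    rw [Pool.Agent.Helper19.OL.rows_apply, hj]
    rfl
  -- the lattice
  set d : ℝ := 4 * (1 + β 3) - h - 2 * (1 + e₃) - τ with hdd
  set y0 : ℝ := (4 * (1 + β 0) - h + d) / 2 with hy0
  set z0 : ℝ := (4 * (1 + β 0) - h - d) / 2 with hz0
  set g : Fin 3 → Fin 3 → ℝ := ![![h, y0, z0], ![0, 2 * (1 + e₂), -τ], ![0, -τ, 2 * (1 + e₃)]]
    with hg
  have hgdet : (Matrix.of g).det = (4 * (1 + e₂) * (1 + e₃) - τ ^ 2) * h := by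
    rw [hg]
    simp [Matrix.det_fin_three]
    ring
  have hadm := Pool.Agent.Helper19.OL.deltaL_ge_forms hK r g hrdet (by rw [hgdet]; exact hD.ne')
    (by
      intro n hn p hp q hq hj
      have k1 : ⟪r 0, p - q⟫ = n 0 * h := by
        rw [hj 0, Fin.sum_univ_three, hg]; simp
      have k2 : ⟪r 1, p - q⟫ = n 0 * y0 + n 1 * (2 * (1 + e₂)) - n 2 * τ := by
        rw [hj 1, Fin.sum_univ_three, hg]; simp; ring
      have k3 : ⟪r 2, p - q⟫ = n 0 * z0 - n 1 * τ + n 2 * (2 * (1 + e₃)) := by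
        rw [hj 2, Fin.sum_univ_three, hg]; simp; ring
      have hne : ¬ (n 0 = 0 ∧ n 1 = 0 ∧ n 2 = 0) := by
        rintro ⟨n0, n1, n2⟩
        apply hn
        funext i
        fin_cases i
        · exact n0
        · exact n1
        · exact n2
      have m := Pool.Agent.Helper84.ML3.adm he h0 h2 h3 ht h1 hP (y0 := y0) (z0 := z0) (by
          rw [hy0, hz0]; ring) (b3 := β 2) (b4 := β 3) (by rw [hy0, hz0, hdd]; linarith)
          (by rw [hy0, hz0, hdd]; linarith) (n 0) (n 1) (n 2) hne _ _ _ k1 k2 k3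
      have s := hsum (p - q)
      have r0 := hrz 0 (p - q)
      have r1 := hrz 1 (p - q)
      have r2 := hrz 2 (p - q)
      rw [show Fin.succ (0 : Fin 3) = 1 from rfl] at r0
      rw [show Fin.succ (1 : Fin 3) = 2 from rfl] at r1
      rw [show Fin.succ (2 : Fin 3) = 3 from rfl] at r2
      have wi : ∀ i, |⟪a i, p - q⟫| < 1 + β i := fun i =>
        lt_of_width (hane i) (fun p hp q hq => by rw [hd]; exact w i p hp q hq) hp hq
      have x1 : |⟪r 0, p - q⟫| < 2 * (1 + e₁) := lt_of_width (hrne 0) (fun p hp q hq => by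
        rw [hrz, hd, hd]; have := w1 p hp q hq
        rw [show Fin.succ (0 : Fin 3) = 1 from rfl]; linarith) hp hq
      have x2 : |⟪r 1, p - q⟫| < 2 * (1 + e₂) := lt_of_width (hrne 1) (fun p hp q hq => by
        rw [hrz, hd, hd]; have := w2 p hp q hq
        rw [show Fin.succ (1 : Fin 3) = 2 from rfl]; linarith) hp hq
      have x3 : |⟪r 2, p - q⟫| < 2 * (1 + e₃) := lt_of_width (hrne 2) (fun p hp q hq => by
        rw [hrz, hd, hd]; have := w3 p hp q hq
        rw [show Fin.succ (2 : Fin 3) = 3 from rfl]; linarith) hp hq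
      have w0' := wi 0
      have w1' := wi 1
      have w2' := wi 2
      have w3' := wi 3
      rw [abs_lt] at w0' w1' w2' w3' x1 x2 x3
      rcases m with m | m | m | m | m | m | m
      · rcases le_abs.1 m with m | m <;> linarith [x1.1, x1.2]
      · rcases le_abs.1 m with m | m <;> linarith [x2.1, x2.2]
      · rcases le_abs.1 m with m | m <;> linarith [x3.1, x3.2]
      · rcases le_abs.1 m with m | m <;> linarith [w0'.1, w0'.2]
      · rcases le_abs.1 m with m | m <;> linarith [w1'.1, w1'.2]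
      · rcases le_abs.1 m with m | m <;> linarith [w2'.1, w2'.2]
      · rcases le_abs.1 m with m | m <;> linarith [w3'.1, w3'.2])
  rw [hgdet, abs_of_pos hD] at hadm
  set G : ℝ := (4 * (1 + e₂) * (1 + e₃) - τ ^ 2) * h with hG
  set R : ℝ := |(Pool.Agent.Helper19.OL.rows r).det| with hR
  have hRpos : 0 < R := abs_pos.2 hrdet
  have hDR : |Dt b| * R = 16 := by
    rw [hR, ← abs_mul, hdet]; norm_num
  have hG0 : ENNReal.ofReal G ≠ 0 := (ENNReal.ofReal_pos.2 hD).ne'
  have e1 : volume K * ENNReal.ofReal R ≤ deltaL K * ENNReal.ofReal G :=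
    (ENNReal.div_le_iff hG0 ENNReal.ofReal_ne_top).1 hadm
  have e2 : ENNReal.ofReal R * ENNReal.ofReal (|Dt b| / 16) = 1 := by
    rw [← ENNReal.ofReal_mul hRpos.le, show R * (|Dt b| / 16) = 1 by linarith,
      ENNReal.ofReal_one]
  have e3 : ENNReal.ofReal (|Dt b| / 16) ≤
      ENNReal.ofReal (3 / 8) * volume (convexHull ℝ (Set.range b)) := by
    have := le_vol_hull b
    calc ENNReal.ofReal (|Dt b| / 16) = ENNReal.ofReal (3 / 8) * ENNReal.ofReal (|Dt b| / 6) := by
          rw [← ENNReal.ofReal_mul (by norm_num)]; congr 1; ring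
      _ ≤ _ := by gcongr
  calc volume K = volume K * (ENNReal.ofReal R * ENNReal.ofReal (|Dt b| / 16)) := by
        rw [e2, mul_one]
    _ = (volume K * ENNReal.ofReal R) * ENNReal.ofReal (|Dt b| / 16) := by ring
    _ ≤ (deltaL K * ENNReal.ofReal G) *
        (ENNReal.ofReal (3 / 8) * volume (convexHull ℝ (Set.range b))) := by gcongr
    _ = ENNReal.ofReal (3 / 8 * G) * volume (convexHull ℝ (Set.range b)) * deltaL K := by
        rw [ENNReal.ofReal_mul (by norm_num : (0 : ℝ) ≤ 3 / 8)]; ring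

end Pool.Agent.Helper62.MT
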