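import Pool.Agent.Helper62.MT.Det
import Pool.Agent.Helper95.ML.Simplex
import Pool.Agent.Helper4.ML3.Helly

/-!
# From the four functionals to an affine basis
-/

set_option autoImplicit false
namespace Pool.Agent.Helper62.MT
open MeasureTheory
open Pool.Agent.Helper59.Pack Pool.Agent.Helper69.MD
open scoped ENNReal Pointwise

theorem det_eq_dt (M : Matrix (Fin 4) (Fin 4) ℝ) :
    M.det = dt (M 0 0) (M 0 1) (M 0 2) (M 0 3) (M 1 0) (M 1 1) (M 1 2) (M 1 3)
      (M 2 0) (M 2 1) (M 2 2) (M 2 3) (M 3 0) (M 3 1) (M 3 2) (M 3 3) := by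
  rw [Matrix.det_succ_row_zero, Fin.sum_univ_four]
  simp only [Matrix.det_fin_three, Matrix.submatrix_apply, Fin.succAbove, dt]
  simp [Fin.castSucc, Fin.succ, Fin.castAdd, Fin.castLE]
  ring

/-- The three products for the diagonal `m`. -/
def Small (B : ℝ) (m : Fin 4 → ℝ) : Prop :=
  B ≤ (m 0 + m 1 - 1) * (m 2 + m 3 - 1) ∧ B ≤ (m 0 + m 2 - 1) * (m 1 + m 3 - 1) ∧
    B ≤ (m 0 + m 3 - 1) * (m 1 + m 2 - 1)

theorem det_ge' (M : Matrix (Fin 4) (Fin 4) ℝ) (h0 : ∀ i j, 0 ≤ M i j) (h1 : ∀ i, ∑ j, M i j = 1)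
    (h3 : 3 ≤ ∑ i, M i i) {B : ℝ} (hB : Small B fun i => M i i) : B ≤ M.det := by
  obtain ⟨b1, b2, b3⟩ := hB
  simp only [Fin.sum_univ_four] at h1 h3
  have e0 := h1 0
  have e1 := h1 1
  have e2 := h1 2
  have e3 := h1 3
  have := det_ge (B := B) (c0 := 1 - M 0 0) (c1 := 1 - M 1 1) (c2 := 1 - M 2 2) (c3 := 1 - M 3 3)
    (h0 0 1) (h0 0 2) (h0 0 3) (h0 1 0) (h0 1 2) (h0 1 3) (h0 2 0) (h0 2 1) (h0 2 3) (h0 3 0)
    (h0 3 1) (h0 3 2) (by linarith) (by linarith) (by linarith) (by linarith) (by linarith)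
    (by linarith) (by linarith) (by linarith)
  rw [det_eq_dt]
  simpa using this

section
variable {u : Fin 4 → E3} {c : Fin 4 → ℝ}

/-- The affine functional. -/
noncomputable def mu (u : Fin 4 → E3) (c : Fin 4 → ℝ) (i : Fin 4) (x : E3) : ℝ :=
  c i + inner ℝ (u i) x

theorem mu_comb (j : Fin 4) (w : Fin 4 → ℝ) (hw : ∑ i, w i = 1) (q : Fin 4 → E3) :
    mu u c j (∑ i, w i • q i) = ∑ i, w i * mu u c j (q i) := by
  unfold mu
  rw [inner_sum]
  simp only [inner_smul_right, mul_add, Finset.sum_add_distrib]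
  rw [← Finset.sum_mul, hw, one_mul]

theorem exists_basis (h1 : ∀ x, ∑ i, mu u c i x = 1) {p : Fin 4 → E3}
    (hdet : (Matrix.of fun i j => mu u c j (p i)).det ≠ 0) :
    ∃ b : AffineBasis (Fin 4) ℝ E3, ∀ i x, b.coord i x = mu u c i x := by
  set M : Matrix (Fin 4) (Fin 4) ℝ := Matrix.of fun i j => mu u c j (p i) with hM
  have hu : IsUnit M.det := isUnit_iff_ne_zero.mpr hdet
  have hrow : M.mulVec 1 = 1 := by
    funext i
    simp only [Matrix.mulVec, dotProduct, Pi.one_apply, mul_one]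
    exact h1 (p i)
  have hrow' : M⁻¹.mulVec 1 = 1 := by
    have := congrArg (M⁻¹.mulVec) hrow
    rw [Matrix.mulVec_mulVec, Matrix.nonsing_inv_mul _ hu, Matrix.one_mulVec] at this
    exact this.symm
  have hsum : ∀ i, ∑ k, M⁻¹ i k = 1 := by
    intro i
    have := congrFun hrow' i
    simpa [Matrix.mulVec, dotProduct] using this
  set q : Fin 4 → E3 := fun i => ∑ k, M⁻¹ i k • p k with hq
  have hqd : ∀ i j, mu u c j (q i) = (1 : Matrix (Fin 4) (Fin 4) ℝ) i j := by
    intro i j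
    rw [hq]
    simp only
    rw [mu_comb j _ (hsum i), ← Matrix.nonsing_inv_mul _ hu, Matrix.mul_apply]
    rfl
  have hind : AffineIndependent ℝ q := by
    rw [affineIndependent_iff_of_fintype]
    intro w hw0 hw i
    rw [Finset.univ.weightedVSub_eq_linear_combination hw0] at hw
    have h2 : inner ℝ (u i) (∑ k, w k • q k) = 0 := by rw [hw, inner_zero_right]
    rw [inner_sum] at h2
    simp only [inner_smul_right] at h2
    have h3 : ∑ k, w k * mu u c i (q k) = 0 := by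
      unfold mu
      simp only [mul_add, Finset.sum_add_distrib]
      rw [← Finset.sum_mul, hw0, zero_mul, zero_add, h2]
    simp only [hqd] at h3
    simpa [Matrix.one_apply] using h3
  have hspan : affineSpan ℝ (Set.range q) = ⊤ := by
    rw [hind.affineSpan_eq_top_iff_card_eq_finrank_add_one]
    simp
  refine ⟨⟨q, hind, hspan⟩, fun i x => ?_⟩
  set b : AffineBasis (Fin 4) ℝ E3 := ⟨q, hind, hspan⟩ with hb
  have h4 : x = ∑ k, b.coord k x • q k := (b.linear_combination_coord_eq_self x).symm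
  have h5 := mu_comb (u := u) (c := c) i (fun k => b.coord k x) (b.sum_coord_apply_eq_one x) q
  rw [← h4] at h5
  rw [h5]
  simp only [hqd]
  simp [Matrix.one_apply]

/-- The frame of step (5). `hvol` is the volume formula for the hull of four points. -/
theorem frame_of
    (hvol : ∀ (b : AffineBasis (Fin 4) ℝ E3) (p : Fin 4 → E3),
      volume (convexHull ℝ (Set.range p)) =
        ENNReal.ofReal |(b.toMatrix p).det| * volume (convexHull ℝ (Set.range b)))
    (h1 : ∀ x, ∑ i, mu u c i x = 1) {p : Fin 4 → E3} (h0 : ∀ i j, 0 ≤ mu u c j (p i))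
    (h3 : 3 < ∑ i, mu u c i (p i)) :
    ∃ b : AffineBasis (Fin 4) ℝ E3, (∀ i x, b.coord i x = mu u c i x) ∧
      ∀ B : ℝ, Small B (fun i => mu u c i (p i)) →
        ENNReal.ofReal B * volume (convexHull ℝ (Set.range b)) ≤
          volume (convexHull ℝ (Set.range p)) := by
  have hle : ∀ i, mu u c i (p i) ≤ 1 := by
    intro i
    rw [← h1 (p i)]
    exact Finset.single_le_sum (f := fun j => mu u c j (p i)) (fun j _ => h0 i j)
      (Finset.mem_univ i)
  have key : ∀ B : ℝ, Small B (fun i => mu u c i (p i)) →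
      B ≤ (Matrix.of fun i j => mu u c j (p i)).det := fun B hB =>
    det_ge' _ (fun i j => h0 i j) (fun i => h1 (p i)) h3.le hB
  have hpos : 0 < (Matrix.of fun i j => mu u c j (p i)).det := by
    simp only [Fin.sum_univ_four] at h3
    have a0 := hle 0
    have a1 := hle 1
    have a2 := hle 2
    have a3 := hle 3
    refine lt_of_lt_of_le ?_ (key ((mu u c 0 (p 0) + mu u c 1 (p 1) + mu u c 2 (p 2) +
      mu u c 3 (p 3) - 3)) ⟨?_, ?_, ?_⟩)
    · linarith
    · nlinarith [mul_nonneg (by linarith : 0 ≤ 2 - mu u c 0 (p 0) - mu u c 1 (p 1))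
        (by linarith : 0 ≤ 2 - mu u c 2 (p 2) - mu u c 3 (p 3))]
    · nlinarith [mul_nonneg (by linarith : 0 ≤ 2 - mu u c 0 (p 0) - mu u c 2 (p 2))
        (by linarith : 0 ≤ 2 - mu u c 1 (p 1) - mu u c 3 (p 3))]
    · nlinarith [mul_nonneg (by linarith : 0 ≤ 2 - mu u c 0 (p 0) - mu u c 3 (p 3))
        (by linarith : 0 ≤ 2 - mu u c 1 (p 1) - mu u c 2 (p 2))]
  obtain ⟨b, hb⟩ := exists_basis h1 hpos.ne'
  refine ⟨b, hb, fun B hB => ?_⟩
  rw [hvol b p]
  gcongr
  have h5 : b.toMatrix p = Matrix.of fun i j => mu u c j (p i) := by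
    ext i j
    rw [AffineBasis.toMatrix_apply, hb]
    rfl
  rw [h5, abs_of_pos hpos]
  exact key B hB

end

/-- Steps (4) and (5): if no translate of `-K` lies in `s • K`, `s ≥ 2`, there is an affine basis
`b` with `0 ≤ b.coord i ≤ mᵢ` on `K`, `mᵢ = b.coord i (p i)`, `p i ∈ K`, `∑ mᵢ > 1 + s`, and the hull
of the four points `p i` has at least the `B`-fold volume of the hull of the basis for every `B`
which is at most the three products `(mᵢ + mⱼ - 1) (mₖ + mₗ - 1)`. -/
theorem frame {K : Set E3} (hK : IsConvexBody K) {s : ℝ} (hs : 2 ≤ s)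
    (h : ¬ ∃ x, ∀ y ∈ K, x - y ∈ s • K) :
    ∃ (b : AffineBasis (Fin 4) ℝ E3) (p : Fin 4 → E3), (∀ i, p i ∈ K) ∧
      (∀ i, ∀ x ∈ K, 0 ≤ b.coord i x ∧ b.coord i x ≤ b.coord i (p i)) ∧
      (∀ i, b.coord i (p i) ≤ 1) ∧ 1 + s < ∑ i, b.coord i (p i) ∧
      ∀ B : ℝ, Small B (fun i => b.coord i (p i)) →
        ENNReal.ofReal B * volume (convexHull ℝ (Set.range b)) ≤
          volume (convexHull ℝ (Set.range p)) := by
  obtain ⟨u, c, p, hp, h1, h2, h3⟩ := Pool.Agent.Helper4.ML3.helly_frame hK (by linarith) h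
  obtain ⟨b, hb, hv⟩ := frame_of (u := u) (c := c) Pool.Agent.Helper95.ML.vol_hull h1 (p := p)
    (fun i j => (h2 j (p i) (hp i)).1) (by unfold mu; linarith)
  refine ⟨b, p, hp, fun i x hx => ?_, fun i => ?_, ?_, fun B hB => hv B ?_⟩
  · rw [hb, hb]
    exact h2 i x hx
  · rw [← b.sum_coord_apply_eq_one (p i)]
    refine Finset.single_le_sum (f := fun j => b.coord j (p i)) (fun j _ => ?_)
      (Finset.mem_univ i)
    rw [hb]
    exact (h2 j (p i) (hp i)).1
  · simp only [hb]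
    exact h3
  · simpa only [hb] using hB

end Pool.Agent.Helper62.MT
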