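import Mathlib

/-!
# The determinant of a stochastic matrix with large diagonal

Rows `(1 - c₀, q₀₁, q₀₂, q₀₃)` and so on, `qᵢⱼ ≥ 0`, `cᵢ = ∑ qᵢⱼ`, `∑ cᵢ ≤ 1`: the determinant is at
least the smallest of the three products `(1 - cᵢ - cⱼ)(1 - cₖ - cₗ)`.
-/

set_option autoImplicit false
namespace Pool.Agent.Helper62.MT

/-- An affine function on a triangle is at least its smallest vertex value. -/
theorem vtx {a b c s K α β γ B : ℝ} (ha : 0 ≤ a) (hb : 0 ≤ b) (hc : 0 ≤ c) (hs : a + b + c = s)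
    (h1 : B ≤ K + s * α) (h2 : B ≤ K + s * β) (h3 : B ≤ K + s * γ) :
    B ≤ K + (a * α + b * β + c * γ) := by
  rcases (by linarith [add_nonneg (add_nonneg ha hb) hc] : 0 ≤ s).eq_or_lt with h | h
  · subst h
    have ha0 : a = 0 := by linarith
    have hb0 : b = 0 := by linarith
    have hc0 : c = 0 := by linarith
    subst ha0 hb0 hc0
    simpa using h1
  · have e1 := mul_le_mul_of_nonneg_left h1 ha
    have e2 := mul_le_mul_of_nonneg_left h2 hb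
    have e3 := mul_le_mul_of_nonneg_left h3 hc
    have e4 : s * B ≤ s * (K + (a * α + b * β + c * γ)) := by
      have e5 : s * (K + (a * α + b * β + c * γ)) =
        a * (K + s * α) + b * (K + s * β) + c * (K + s * γ) := by
        rw [← hs]; ring
      have e6 : s * B = a * B + b * B + c * B := by rw [← hs]; ring
      rw [e5, e6]
      linarith
    exact le_of_mul_le_mul_left e4 h

/-- The determinant of the matrix with the rows `a, b, c, d`. -/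
def dt (a0 a1 a2 a3 b0 b1 b2 b3 c0 c1 c2 c3 d0 d1 d2 d3 : ℝ) : ℝ :=
  a0 * (b1 * (c2 * d3 - c3 * d2) - b2 * (c1 * d3 - c3 * d1) + b3 * (c1 * d2 - c2 * d1)) -
  a1 * (b0 * (c2 * d3 - c3 * d2) - b2 * (c0 * d3 - c3 * d0) + b3 * (c0 * d2 - c2 * d0)) +
  a2 * (b0 * (c1 * d3 - c3 * d1) - b1 * (c0 * d3 - c3 * d0) + b3 * (c0 * d1 - c1 * d0)) -
  a3 * (b0 * (c1 * d2 - c2 * d1) - b1 * (c0 * d2 - c2 * d0) + b2 * (c0 * d1 - c1 * d0))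

theorem row0 {B m s q1 q2 q3 b0 b1 b2 b3 c0 c1 c2 c3 d0 d1 d2 d3 : ℝ} (h1 : 0 ≤ q1) (h2 : 0 ≤ q2)
    (h3 : 0 ≤ q3) (hs : q1 + q2 + q3 = s)
    (e1 : B ≤ dt m s 0 0 b0 b1 b2 b3 c0 c1 c2 c3 d0 d1 d2 d3)
    (e2 : B ≤ dt m 0 s 0 b0 b1 b2 b3 c0 c1 c2 c3 d0 d1 d2 d3)
    (e3 : B ≤ dt m 0 0 s b0 b1 b2 b3 c0 c1 c2 c3 d0 d1 d2 d3) :
    B ≤ dt m q1 q2 q3 b0 b1 b2 b3 c0 c1 c2 c3 d0 d1 d2 d3 := by
  have := vtx (B := B) (K := dt m 0 0 0 b0 b1 b2 b3 c0 c1 c2 c3 d0 d1 d2 d3)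
    (α := dt 0 1 0 0 b0 b1 b2 b3 c0 c1 c2 c3 d0 d1 d2 d3)
    (β := dt 0 0 1 0 b0 b1 b2 b3 c0 c1 c2 c3 d0 d1 d2 d3)
    (γ := dt 0 0 0 1 b0 b1 b2 b3 c0 c1 c2 c3 d0 d1 d2 d3) h1 h2 h3 hs
    (by unfold dt at *; linarith) (by unfold dt at *; linarith) (by unfold dt at *; linarith)
  unfold dt at *; linarith

theorem row1 {B m s q1 q2 q3 b0 b1 b2 b3 c0 c1 c2 c3 d0 d1 d2 d3 : ℝ} (h1 : 0 ≤ q1) (h2 : 0 ≤ q2)
    (h3 : 0 ≤ q3) (hs : q1 + q2 + q3 = s)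
    (e1 : B ≤ dt b0 b1 b2 b3 s m 0 0 c0 c1 c2 c3 d0 d1 d2 d3)
    (e2 : B ≤ dt b0 b1 b2 b3 0 m s 0 c0 c1 c2 c3 d0 d1 d2 d3)
    (e3 : B ≤ dt b0 b1 b2 b3 0 m 0 s c0 c1 c2 c3 d0 d1 d2 d3) :
    B ≤ dt b0 b1 b2 b3 q1 m q2 q3 c0 c1 c2 c3 d0 d1 d2 d3 := by
  have := vtx (B := B) (K := dt b0 b1 b2 b3 0 m 0 0 c0 c1 c2 c3 d0 d1 d2 d3)
    (α := dt b0 b1 b2 b3 1 0 0 0 c0 c1 c2 c3 d0 d1 d2 d3)
    (β := dt b0 b1 b2 b3 0 0 1 0 c0 c1 c2 c3 d0 d1 d2 d3)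
    (γ := dt b0 b1 b2 b3 0 0 0 1 c0 c1 c2 c3 d0 d1 d2 d3) h1 h2 h3 hs
    (by unfold dt at *; linarith) (by unfold dt at *; linarith) (by unfold dt at *; linarith)
  unfold dt at *; linarith

theorem row2 {B m s q1 q2 q3 b0 b1 b2 b3 c0 c1 c2 c3 d0 d1 d2 d3 : ℝ} (h1 : 0 ≤ q1) (h2 : 0 ≤ q2)
    (h3 : 0 ≤ q3) (hs : q1 + q2 + q3 = s)
    (e1 : B ≤ dt b0 b1 b2 b3 c0 c1 c2 c3 s 0 m 0 d0 d1 d2 d3)
    (e2 : B ≤ dt b0 b1 b2 b3 c0 c1 c2 c3 0 s m 0 d0 d1 d2 d3)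
    (e3 : B ≤ dt b0 b1 b2 b3 c0 c1 c2 c3 0 0 m s d0 d1 d2 d3) :
    B ≤ dt b0 b1 b2 b3 c0 c1 c2 c3 q1 q2 m q3 d0 d1 d2 d3 := by
  have := vtx (B := B) (K := dt b0 b1 b2 b3 c0 c1 c2 c3 0 0 m 0 d0 d1 d2 d3)
    (α := dt b0 b1 b2 b3 c0 c1 c2 c3 1 0 0 0 d0 d1 d2 d3)
    (β := dt b0 b1 b2 b3 c0 c1 c2 c3 0 1 0 0 d0 d1 d2 d3)
    (γ := dt b0 b1 b2 b3 c0 c1 c2 c3 0 0 0 1 d0 d1 d2 d3) h1 h2 h3 hs
    (by unfold dt at *; linarith) (by unfold dt at *; linarith) (by unfold dt at *; linarith)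
  unfold dt at *; linarith

theorem row3 {B m s q1 q2 q3 b0 b1 b2 b3 c0 c1 c2 c3 d0 d1 d2 d3 : ℝ} (h1 : 0 ≤ q1) (h2 : 0 ≤ q2)
    (h3 : 0 ≤ q3) (hs : q1 + q2 + q3 = s)
    (e1 : B ≤ dt b0 b1 b2 b3 c0 c1 c2 c3 d0 d1 d2 d3 s 0 0 m)
    (e2 : B ≤ dt b0 b1 b2 b3 c0 c1 c2 c3 d0 d1 d2 d3 0 s 0 m)
    (e3 : B ≤ dt b0 b1 b2 b3 c0 c1 c2 c3 d0 d1 d2 d3 0 0 s m) :
    B ≤ dt b0 b1 b2 b3 c0 c1 c2 c3 d0 d1 d2 d3 q1 q2 q3 m := by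
  have := vtx (B := B) (K := dt b0 b1 b2 b3 c0 c1 c2 c3 d0 d1 d2 d3 0 0 0 m)
    (α := dt b0 b1 b2 b3 c0 c1 c2 c3 d0 d1 d2 d3 1 0 0 0)
    (β := dt b0 b1 b2 b3 c0 c1 c2 c3 d0 d1 d2 d3 0 1 0 0)
    (γ := dt b0 b1 b2 b3 c0 c1 c2 c3 d0 d1 d2 d3 0 0 1 0) h1 h2 h3 hs
    (by unfold dt at *; linarith) (by unfold dt at *; linarith) (by unfold dt at *; linarith)
  unfold dt at *; linarith

theorem det_ge {B c0 c1 c2 c3 q01 q02 q03 q10 q12 q13 q20 q21 q23 q30 q31 q32 : ℝ}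
    (h01 : 0 ≤ q01) (h02 : 0 ≤ q02) (h03 : 0 ≤ q03) (h10 : 0 ≤ q10) (h12 : 0 ≤ q12)
    (h13 : 0 ≤ q13) (h20 : 0 ≤ q20) (h21 : 0 ≤ q21) (h23 : 0 ≤ q23) (h30 : 0 ≤ q30)
    (h31 : 0 ≤ q31) (h32 : 0 ≤ q32) (s0 : q01 + q02 + q03 = c0) (s1 : q10 + q12 + q13 = c1)
    (s2 : q20 + q21 + q23 = c2) (s3 : q30 + q31 + q32 = c3) (hc : c0 + c1 + c2 + c3 ≤ 1)
    (b1 : B ≤ (1 - c0 - c1) * (1 - c2 - c3)) (b2 : B ≤ (1 - c0 - c2) * (1 - c1 - c3))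
    (b3 : B ≤ (1 - c0 - c3) * (1 - c1 - c2)) :
    B ≤ dt (1 - c0) q01 q02 q03 q10 (1 - c1) q12 q13 q20 q21 (1 - c2) q23 q30 q31 q32 (1 - c3) := by
  have k0 : 0 ≤ c0 := by linarith
  have k1 : 0 ≤ c1 := by linarith
  have k2 : 0 ≤ c2 := by linarith
  have k3 : 0 ≤ c3 := by linarith
  have p01 := mul_nonneg k0 k1
  have p02 := mul_nonneg k0 k2
  have p03 := mul_nonneg k0 k3
  have p12 := mul_nonneg k1 k2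
  have p13 := mul_nonneg k1 k3
  have p23 := mul_nonneg k2 k3
  have m01 : 0 ≤ 1 - c0 - c1 := by linarith
  have m02 : 0 ≤ 1 - c0 - c2 := by linarith
  have m03 : 0 ≤ 1 - c0 - c3 := by linarith
  have m12 : 0 ≤ 1 - c1 - c2 := by linarith
  have m13 : 0 ≤ 1 - c1 - c3 := by linarith
  have m23 : 0 ≤ 1 - c2 - c3 := by linarith
  have r01 := mul_nonneg p01 m23
  have r02 := mul_nonneg p02 m13
  have r03 := mul_nonneg p03 m12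
  have r12 := mul_nonneg p12 m03
  have r13 := mul_nonneg p13 m02
  have r23 := mul_nonneg p23 m01
  have t012 := mul_nonneg p01 k2
  have t013 := mul_nonneg p01 k3
  have t023 := mul_nonneg p02 k3
  have t123 := mul_nonneg p12 k3
  have f := mul_nonneg p01 p23
  have n0 : 0 ≤ 1 - c0 := by linarith
  have n1 : 0 ≤ 1 - c1 := by linarith
  have n2 : 0 ≤ 1 - c2 := by linarith
  have n3 : 0 ≤ 1 - c3 := by linarith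
  have w012 := mul_nonneg t012 n3
  have w013 := mul_nonneg t013 n2
  have w023 := mul_nonneg t023 n1
  have w123 := mul_nonneg t123 n0
  refine row0 h01 h02 h03 s0 ?_ ?_ ?_ <;> refine row1 h10 h12 h13 s1 ?_ ?_ ?_ <;>
    refine row2 h20 h21 h23 s2 ?_ ?_ ?_ <;> refine row3 h30 h31 h32 s3 ?_ ?_ ?_ <;>
    (unfold dt; linarith)

end Pool.Agent.Helper62.MT
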